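import Pool.Agent.Q161.ESN.Stm3
import Pool.Agent.Q149.ESM.ZEX

/-!
# Project ESN (helper161), job ZEX: existence of `z` for given types (twists over a number field `F`)
-/

set_option autoImplicit false
set_option linter.style.haveILetI false
set_option linter.unusedSectionVars false
set_option linter.unusedVariables false

namespace Pool.Agent.Q184.ESN

open Polynomial NumberField IsDedekindDomain Finset
open Pool.Agent.Q51.EL (Abv)
open Pool.Agent.Q161.ESN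
open Pool.Agent.Q149.ESM (Blw blw_eq blw_unique exists_blw val_blw finite_abv norm_em abv_blw nat_mem)

section gal

variable {F K : Type} [Field F] [NumberField F] [Field K] [NumberField K] [Algebra F K]

theorem mv_q {g : K ≃ₐ[F] K} {w w' : HeightOneSpectrum (𝓞 K)} (h : Mv g w w') :
    Pool.Agent.Q161.ESM.Mv (g.restrictScalars ℚ) w w' := h

theorem exists_gal (g : K ≃ₐ[ℚ] K) (hg : ∀ f : F, g (algebraMap F K f) = algebraMap F K f) :
    ∃ g' : K ≃ₐ[F] K, ∀ x, g' x = g x :=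
  ⟨AlgEquiv.ofRingEquiv (f := g.toRingEquiv) hg, fun _ => rfl⟩

/-- transitivity of the Galois group over `F` on the primes above a prime of a field between -/
theorem trans_em [IsGalois ℚ K] {M : Type} [Field M] [NumberField M] (em : M →+* K)
    (hem : ∀ f : F, ∃ y : M, em y = algebraMap F K f) (w w' : HeightOneSpectrum (𝓞 K))
    (h : ∀ x : 𝓞 M, RingOfIntegers.mapRingHom em x ∈ w.asIdeal ↔
      RingOfIntegers.mapRingHom em x ∈ w'.asIdeal) :
    ∃ g : K ≃ₐ[F] K, (∀ y : M, g (em y) = em y) ∧ Mv g w w' := by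
  obtain ⟨g, hg1, hg2⟩ := Pool.Agent.Q149.ESM.trans_over em w w' h
  obtain ⟨g', hg'⟩ := exists_gal (F := F) g fun f => by
    obtain ⟨y, hy⟩ := hem f
    rw [← hy]
    exact hg1 y
  refine ⟨g', fun y => by rw [hg', hg1], fun x y hxy => hg2 x y ?_⟩
  rw [hxy, hg']

theorem ov_blw {w : HeightOneSpectrum (𝓞 K)} {v : HeightOneSpectrum (𝓞 F)} (h : Ov w v) :
    Blw (algebraMap F K) v w := h

theorem trans_ov [IsGalois ℚ K] {w w' : HeightOneSpectrum (𝓞 K)} {v : HeightOneSpectrum (𝓞 F)}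
    (h : Ov w v) (h' : Ov w' v) : ∃ g : K ≃ₐ[F] K, Mv g w w' := by
  obtain ⟨g, -, hg⟩ := trans_em (F := F) (algebraMap F K) (fun f => ⟨f, rfl⟩) w w' (fun x => by
    have h1 := h x
    have h2 := h' x
    exact h1.symm.trans h2)
  exact ⟨g, hg⟩

theorem val_mv {l : ℕ} (hl : l ≠ 0) (hsq : Squarefree (Ideal.span {(l : 𝓞 K)}))
    {w w' : HeightOneSpectrum (𝓞 K)} (hw' : Abv w' l) (g : K ≃ₐ[F] K) (h : Mv g w w') (y : K) :
    w'.valuation K (g y) = w.valuation K y :=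
  Pool.Agent.Q149.ESM.val_mv hl hsq hw' (g.restrictScalars ℚ) (mv_q h) y

theorem exists_mv {l : ℕ} (hl : l ≠ 0) {w' : HeightOneSpectrum (𝓞 K)} (hw' : Abv w' l)
    (g : K ≃ₐ[F] K) : ∃ w : HeightOneSpectrum (𝓞 K), Mv g w w' :=
  Pool.Agent.Q149.ESM.exists_mv hl hw' (g.restrictScalars ℚ)

theorem abv_mv {l : ℕ} {w w' : HeightOneSpectrum (𝓞 K)} {g : K ≃ₐ[F] K} (h : Mv g w w') :
    Abv w l ↔ Abv w' l :=
  Pool.Agent.Q149.ESM.abv_mv (mv_q h)

theorem ov_mv {w w' : HeightOneSpectrum (𝓞 K)} {v : HeightOneSpectrum (𝓞 F)} {g : K ≃ₐ[F] K}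
    (h : Mv g w w') : Ov w v ↔ Ov w' v := by
  have h1 : ∀ x : 𝓞 F, iO F K x ∈ w.asIdeal ↔ iO F K x ∈ w'.asIdeal := fun x =>
    h (iO F K x) (iO F K x) (g.commutes (x : F)).symm
  constructor
  · intro h2 x
    rw [h2 x, h1 x]
  · intro h2 x
    rw [h2 x, h1 x]

theorem fb_mv {w : HeightOneSpectrum (𝓞 K)} {q : ℕ} (hq : q ≠ 0) {φ : K ≃ₐ[F] K} (h : Fb w q φ) :
    Mv φ w w :=
  Pool.Agent.Q149.ESM.fb_mv (F := φ.restrictScalars ℚ) hq h

theorem blw_fix [IsGalois ℚ K] {M : Type} [Field M] [NumberField M] {em : M →+* K}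
    {v : HeightOneSpectrum (𝓞 M)} {w w' : HeightOneSpectrum (𝓞 K)} (h : Blw em v w)
    (g : K ≃ₐ[F] K) (hg : ∀ y : M, g (em y) = em y) (hm : Mv g w w') : Blw em v w' :=
  Pool.Agent.Q149.ESM.blw_fix h (g.restrictScalars ℚ) hg (mv_q hm)

theorem norm_ne (v : HeightOneSpectrum (𝓞 F)) : Ideal.absNorm v.asIdeal ≠ 0 := fun h =>
  v.ne_bot (Ideal.absNorm_eq_zero_iff.1 h)

theorem one_lt_norm (v : HeightOneSpectrum (𝓞 F)) : 1 < Ideal.absNorm v.asIdeal := by
  have h1 : Ideal.absNorm v.asIdeal ≠ 1 := fun h => v.isPrime.ne_top (Ideal.absNorm_eq_one_iff.1 h)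
  have h2 := norm_ne v
  omega

theorem ov_abv {w : HeightOneSpectrum (𝓞 K)} {v : HeightOneSpectrum (𝓞 F)} (h : Ov w v) (l : ℕ) :
    Abv v l ↔ Abv w l := by
  have h1 := h (l : 𝓞 F)
  rw [map_natCast] at h1
  exact h1

theorem abv_norm (v : HeightOneSpectrum (𝓞 F)) : Abv v (Ideal.absNorm v.asIdeal) :=
  Ideal.absNorm_mem v.asIdeal

theorem exists_abv (v : HeightOneSpectrum (𝓞 F)) : ∃ l : ℕ, l.Prime ∧ Abv v l := by
  have key : ∀ n : ℕ, n ≠ 0 → Abv v n → ∃ l : ℕ, l.Prime ∧ Abv v l := by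
    intro n
    induction n using Nat.strong_induction_on with
    | _ n ih =>
      intro hn0 hn
      have hn1 : n ≠ 1 := by
        rintro rfl
        apply v.isPrime.ne_top
        rw [Ideal.eq_top_iff_one]
        have h1 : ((1 : ℕ) : 𝓞 F) ∈ v.asIdeal := hn
        rwa [Nat.cast_one] at h1
      have hp := Nat.minFac_prime hn1
      have h2 : n.minFac * (n / n.minFac) = n := Nat.mul_div_cancel' (Nat.minFac_dvd n)
      have h3 : ((n.minFac : ℕ) : 𝓞 F) * ((n / n.minFac : ℕ) : 𝓞 F) ∈ v.asIdeal := by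
        rw [← Nat.cast_mul, h2]
        exact hn
      rcases v.isPrime.mem_or_mem h3 with h4 | h4
      · exact ⟨_, hp, h4⟩
      · refine ih (n / n.minFac) (Nat.div_lt_self (Nat.pos_of_ne_zero hn0) hp.one_lt) ?_ h4
        intro h5
        rw [h5, mul_zero] at h2
        exact hn0 h2.symm
  exact key _ (norm_ne v) (abv_norm v)

/-- the norm of a prime is bounded by `q` if `x ≡ x^q` -/
theorem absNorm_le {M : Type} [Field M] [NumberField M] {q : ℕ} (hq : 1 < q)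
    {v : HeightOneSpectrum (𝓞 M)} (h : ∀ x : 𝓞 M, x - x ^ q ∈ v.asIdeal) :
    Ideal.absNorm v.asIdeal ≤ q := by
  classical
  haveI : v.asIdeal.IsMaximal := v.isMaximal
  letI : Field (𝓞 M ⧸ v.asIdeal) := Ideal.Quotient.field v.asIdeal
  haveI : Finite (𝓞 M ⧸ v.asIdeal) := Ideal.finiteQuotientOfFreeOfNeBot v.asIdeal v.ne_bot
  letI : Fintype (𝓞 M ⧸ v.asIdeal) := Fintype.ofFinite _
  have h2 : Fintype.card (𝓞 M ⧸ v.asIdeal) ≤ q := by
    have h3 : ((Finset.univ : Finset (𝓞 M ⧸ v.asIdeal)).val ⊆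
        (X ^ q - X : (𝓞 M ⧸ v.asIdeal)[X]).roots) := by
      intro x _
      rw [Polynomial.mem_roots (FiniteField.X_pow_card_sub_X_ne_zero _ hq)]
      obtain ⟨y, rfl⟩ := Ideal.Quotient.mk_surjective x
      rw [Polynomial.IsRoot, Polynomial.eval_sub, Polynomial.eval_pow, Polynomial.eval_X, ← map_pow,
        ← map_sub, Ideal.Quotient.eq_zero_iff_mem]
      have := h y
      rw [← neg_mem_iff, neg_sub] at this
      exact this
    have h4 := Polynomial.card_le_degree_of_subset_roots h3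
    rw [FiniteField.X_pow_card_sub_X_natDegree_eq _ hq] at h4
    rwa [Finset.card_univ] at h4
  rw [Ideal.absNorm_apply, Submodule.cardQuot_apply, Nat.card_eq_fintype_card]
  exact h2

end gal

section norms

variable {F K : Type} [Field F] [NumberField F] [Field K] [NumberField K] [Algebra F K]

theorem exists_of [IsGalois ℚ K] (P : 𝓞 K) (h : ∀ g : K ≃ₐ[F] K, g (P : K) = P) :
    ∃ N : 𝓞 F, P = iO F K N := by
  haveI : IsGalois F K := IsGalois.tower_top_of_isGalois ℚ F K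
  obtain ⟨q, hq⟩ := (IsGalois.mem_range_algebraMap_iff_fixed (F := F) (P : K)).2 h
  have h1 : IsIntegral ℤ q := by
    have h2 : IsIntegral ℤ (algebraMap F K q) := by
      rw [hq]
      exact RingOfIntegers.isIntegral_coe P
    exact (isIntegral_algebraMap_iff (algebraMap F K).injective).1 h2
  refine ⟨⟨q, h1⟩, ?_⟩
  apply RingOfIntegers.ext
  rw [← hq]
  rfl

variable {V : Type} [AddCommGroup V] [DistribMulAction (K ≃ₐ[F] K) V]

theorem prod_inv [IsGalois ℚ K] [Fintype V] (z : V → 𝓞 K) (hz : Eqv F z) :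
    ∃ N : 𝓞 F, ∏ t, z t = iO F K N := by
  classical
  refine exists_of _ fun g => ?_
  have h1 : ((∏ t, z t : 𝓞 K) : K) = ∏ t, (z t : K) := map_prod (algebraMap (𝓞 K) K) _ _
  rw [h1, map_prod]
  have h2 : ∀ t, g (z t : K) = (z (g • t) : K) := fun t => (hz g t).symm
  simp only [h2]
  exact Equiv.prod_comp (MulAction.toPerm g) (fun t => (z t : K))

variable {ι : Type} [Fintype ι] {Lf : ι → Type} [∀ i, Field (Lf i)] [∀ i, NumberField (Lf i)]
  {em : (i : ι) → Lf i →+* K} {rp : ι → V}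

theorem absNorm_eq_norm {M : Type} [Field M] [NumberField M] (x : 𝓞 M) :
    |Algebra.norm ℚ (x : M)| = ((Ideal.absNorm (Ideal.span {x}) : ℕ) : ℚ) := by
  rw [Ideal.absNorm_span_singleton, ← Algebra.coe_norm_int, Nat.cast_natAbs, Int.cast_abs]

theorem prod_norm [IsGalois ℚ K] [Fintype V] (hRp : Rp F Lf em rp)
    (hfin : ∀ i, Module.finrank ℚ (Lf i) =
      Module.finrank ℚ F * {t : V | ∃ g : K ≃ₐ[F] K, g • rp i = t}.ncard)
    (β : (i : ι) → 𝓞 (Lf i)) (z : V → 𝓞 K) (hz : Eqv F z)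
    (hzb : ∀ i, (z (rp i) : K) = em i (β i : Lf i)) (N : 𝓞 F) (hN : ∏ t, z t = iO F K N) :
    Ideal.absNorm (Ideal.span {N}) = ∏ i, Ideal.absNorm (Ideal.span {β i}) := by
  classical
  have hn : 0 < Module.finrank ℚ K := Module.finrank_pos
  have hnF : 0 < Module.finrank ℚ F := Module.finrank_pos
  obtain ⟨d, hd1, hd2⟩ := norm_em (algebraMap F K)
  have hd0 : d ≠ 0 := by
    rintro rfl
    rw [zero_mul] at hd1
    omega
  choose m hm1 hm2 using fun i => norm_em (em i)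
  -- the index of the orbit
  have hidx : ∀ t : V, ∃ i : ι, (∃ g : K ≃ₐ[F] K, g • rp i = t) ∧
      ∀ i', (∃ g : K ≃ₐ[F] K, g • rp i' = t) → i' = i := fun t => hRp.orb t
  choose idx hidx1 hidx2 using hidx
  have h1 : Algebra.norm ℚ (N : F) ^ d = ∏ t, Algebra.norm ℚ (z t : K) := by
    rw [← map_prod, ← hd2]
    congr 1
    have h2 : ((∏ t, z t : 𝓞 K) : K) = ∏ t, (z t : K) := map_prod (algebraMap (𝓞 K) K) _ _
    rw [← h2, hN]
    rfl
  have h2 : ∀ t, Algebra.norm ℚ (z t : K) = Algebra.norm ℚ (β (idx t) : Lf (idx t)) ^ m (idx t) := by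
    intro t
    obtain ⟨g, hg⟩ := hidx1 t
    have h3 : (z t : K) = (g.restrictScalars ℚ) (z (rp (idx t)) : K) := by
      show (z t : K) = g (z (rp (idx t)) : K)
      rw [← hz g, hg]
    rw [h3, Algebra.norm_eq_of_algEquiv, hzb, hm2]
  have h3 : ∏ t, Algebra.norm ℚ (z t : K) =
      ∏ i, (Algebra.norm ℚ (β i : Lf i)) ^ d := by
    rw [← Finset.prod_fiberwise (s := Finset.univ) (g := idx)]
    refine Finset.prod_congr rfl fun i _ => ?_
    have hc : m i * {t : V | ∃ g : K ≃ₐ[F] K, g • rp i = t}.ncard = d := by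
      have h5 := hm1 i
      rw [hfin i, ← hd1] at h5
      have h6 : Module.finrank ℚ F * (m i * {t : V | ∃ g : K ≃ₐ[F] K, g • rp i = t}.ncard) =
          Module.finrank ℚ F * d := by
        rw [mul_comm (Module.finrank ℚ F) d, ← h5]
        ring
      exact Nat.eq_of_mul_eq_mul_left hnF h6
    rw [Finset.prod_congr rfl (g := fun _ => Algebra.norm ℚ (β i : Lf i) ^ m i) (fun t ht => by
      rw [h2 t]
      have := (Finset.mem_filter.1 ht).2
      subst this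
      rfl), Finset.prod_const, ← pow_mul, ← hc]
    congr 2
    rw [Set.ncard_eq_toFinset_card']
    congr 1
    ext t
    rw [Finset.mem_filter, Set.mem_toFinset, Set.mem_ofPred_eq]
    constructor
    · rintro ⟨-, rfl⟩
      exact hidx1 t
    · intro h
      exact ⟨Finset.mem_univ _, (hidx2 t i h).symm⟩
  rw [h3, Finset.prod_pow] at h1
  have h4 : |Algebra.norm ℚ (N : F)| = |∏ i, Algebra.norm ℚ (β i : Lf i)| := by
    have h5 := congrArg abs h1
    rw [abs_pow, abs_pow] at h5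
    exact (pow_left_inj₀ (abs_nonneg _) (abs_nonneg _) hd0).1 h5
  rw [Finset.abs_prod] at h4
  simp only [absNorm_eq_norm] at h4
  exact_mod_cast h4

omit [Fintype ι] in
theorem stab [IsGalois ℚ K] (hRp : Rp F Lf em rp) (i : ι) (h : K ≃ₐ[F] K)
    (hh : ∀ y : Lf i, h (em i y) = em i y) : h • rp i = rp i := by
  haveI : FiniteDimensional F K := FiniteDimensional.right ℚ F K
  have h1 : h ∈ IntermediateField.fixingSubgroup
      (IntermediateField.fixedField (MulAction.stabilizer (K ≃ₐ[F] K) (rp i))) := by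
    rw [IntermediateField.mem_fixingSubgroup_iff]
    intro x hx
    rw [IntermediateField.mem_fixedField_iff] at hx
    obtain ⟨y, rfl⟩ := (hRp.fix i x).1 (fun g hg => hx g hg)
    exact hh y
  rw [IntermediateField.fixingSubgroup_fixedField] at h1
  exact h1

end norms

theorem nice_mono {L : Type} [Field L] [NumberField L] {K K' : ℝ} (hK : K ≤ K') {α : 𝓞 L}
    (h : Nice K α) : Nice K' α where
  ne := h.ne
  bal := fun σ => (h.bal σ).trans (mul_le_mul_of_nonneg_right hK (Nat.cast_nonneg _))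
  om := h.om.trans (mul_le_mul_of_nonneg_right hK (by positivity))

section main

variable {F K : Type} [Field F] [NumberField F] [Field K] [NumberField K] [Algebra F K]
  [IsGalois ℚ K] {V : Type} [AddCommGroup V] [DistribMulAction (K ≃ₐ[F] K) V]
  {ι : Type} {Lf : ι → Type} [∀ i, Field (Lf i)] [∀ i, NumberField (Lf i)]
  {em : (i : ι) → Lf i →+* K} {rp : ι → V}

/-- the primes of `Lf i` attached to the types -/
def SZ (em : (i : ι) → Lf i →+* K) (rp : ι → V) (R : Finset (HeightOneSpectrum (𝓞 F)))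
    (τ : HeightOneSpectrum (𝓞 K) → V) (i : ι) : Set (HeightOneSpectrum (𝓞 (Lf i))) :=
  {u | ∃ v ∈ R, ∃ w : HeightOneSpectrum (𝓞 K), Ov w v ∧ τ w = rp i ∧ Blw (em i) u w}

theorem em_F (hRp : Rp F Lf em rp) (i : ι) (f : F) : ∃ y : Lf i, em i y = algebraMap F K f :=
  (hRp.fix i _).1 fun g _ => g.commutes f

theorem sz_finite {R : Finset (HeightOneSpectrum (𝓞 F))} (τ : HeightOneSpectrum (𝓞 K) → V) (i : ι) :
    (SZ em rp R τ i).Finite := by
  have h1 : (⋃ v ∈ R, {u : HeightOneSpectrum (𝓞 (Lf i)) | Abv u (Ideal.absNorm v.asIdeal)}).Finite :=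
    Set.Finite.biUnion R.finite_toSet (fun v _ => finite_abv (norm_ne v))
  refine h1.subset ?_
  rintro u ⟨v, hv, w, hw, -, hu⟩
  exact Set.mem_biUnion hv ((abv_blw hu).2 ((ov_abv hw _).1 (abv_norm v)))

theorem sz_norm (hRp : Rp F Lf em rp) {v : HeightOneSpectrum (𝓞 F)}
    {τ : HeightOneSpectrum (𝓞 K) → V}
    (hτ : ∀ (w w' : HeightOneSpectrum (𝓞 K)) (g : K ≃ₐ[F] K), Ov w v → Mv g w w' →
      τ w' = g • τ w)
    {i : ι} {w : HeightOneSpectrum (𝓞 K)} (hw : Ov w v) (hwi : τ w = rp i)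
    {φ : K ≃ₐ[F] K} (hφ : Fb w (Ideal.absNorm v.asIdeal) φ) {u : HeightOneSpectrum (𝓞 (Lf i))}
    (hu : Blw (em i) u w) :
    Ideal.absNorm u.asIdeal ≤ Ideal.absNorm v.asIdeal := by
  have h1 : Mv φ w w := fb_mv (norm_ne v) hφ
  have h2 : φ • rp i = rp i := by
    rw [← hwi]
    exact (hτ w w φ hw h1).symm
  refine absNorm_le (one_lt_norm v) fun x => ?_
  rw [hu, map_sub, map_pow]
  refine hφ _ _ ?_
  exact ((hRp.fix i (em i x)).2 ⟨x, rfl⟩ φ h2).symm

theorem sz_eq (hRp : Rp F Lf em rp) {v : HeightOneSpectrum (𝓞 F)}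
    {τ : HeightOneSpectrum (𝓞 K) → V}
    (hτ : ∀ (w w' : HeightOneSpectrum (𝓞 K)) (g : K ≃ₐ[F] K), Ov w v → Mv g w w' →
      τ w' = g • τ w)
    {i : ι} {w w' : HeightOneSpectrum (𝓞 K)} (hw : Ov w v) (hw' : Ov w' v) (hwi : τ w = rp i)
    (hwi' : τ w' = rp i)
    {u u' : HeightOneSpectrum (𝓞 (Lf i))} (hu : Blw (em i) u w) (hu' : Blw (em i) u' w') :
    u = u' := by
  obtain ⟨g, hg⟩ := trans_ov hw hw'
  have h1 : g • rp i = rp i := by
    have h2 := hτ w w' g hw hg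
    rw [hwi, hwi'] at h2
    exact h2.symm
  exact blw_unique (em i) (blw_fix hu g (fun y => (hRp.fix i (em i y)).2 ⟨y, rfl⟩ g h1) hg) hu'

theorem sz_mem (hRp : Rp F Lf em rp) {R : Finset (HeightOneSpectrum (𝓞 F))}
    {τ : HeightOneSpectrum (𝓞 K) → V}
    (hτ : ∀ v ∈ R, ∀ (w w' : HeightOneSpectrum (𝓞 K)) (g : K ≃ₐ[F] K), Ov w v → Mv g w w' →
      τ w' = g • τ w)
    {i : ι} {w w0 : HeightOneSpectrum (𝓞 K)}
    {g : K ≃ₐ[F] K} (hm : Mv g w0 w) {u : HeightOneSpectrum (𝓞 (Lf i))} (hu : Blw (em i) u w0) :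
    u ∈ SZ em rp R τ i ↔ ((∃ v ∈ R, Ov w v) ∧ τ w = g • rp i) := by
  constructor
  · rintro ⟨v, hvR, w'', hw'', hτ'', hu''⟩
    obtain ⟨h, hh1, hh2⟩ := trans_em (F := F) (em i) (em_F hRp i) w'' w0
      (fun x => by rw [← hu'' x, ← hu x])
    have h5 : τ w0 = rp i := by
      rw [hτ v hvR w'' w0 h hw'' hh2, hτ'']
      exact stab hRp i h hh1
    have h6 : Ov w0 v := (ov_mv hh2).1 hw''
    exact ⟨⟨v, hvR, (ov_mv hm).1 h6⟩, by rw [hτ v hvR w0 w g h6 hm, h5]⟩
  · rintro ⟨⟨v, hvR, hwv⟩, h1⟩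
    have h6 : Ov w0 v := (ov_mv hm).2 hwv
    refine ⟨v, hvR, w0, h6, ?_, hu⟩
    rw [hτ v hvR w0 w g h6 hm] at h1
    exact smul_left_cancel g h1

end main

theorem zex : S_GEN → S_EVX → S_FRX → S_ZEX := by
  intro hGEN hEVX hFRX F K _ _ _ _ _ _ V _ _ _ ι _ Lf _ _ em rp hRp
  classical
  obtain ⟨⟨ev, hev⟩, hfin⟩ := hEVX F K V ι Lf em rp hRp
  obtain ⟨B, hB0, hB⟩ := hFRX F K
  choose B0 C K0 hB1 hC hgen using fun i => hGEN (Lf i)
  refine ⟨B * ∏ i, B0 i, ∏ i, C i, ∑ i, |K0 i|,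
    mul_ne_zero hB0 (Finset.prod_ne_zero_iff.2 fun i _ => hB1 i), Finset.prod_pos fun i _ => hC i, ?_⟩
  intro R τ hR hτ
  have hdB : ∀ l : ℕ, ¬ l ∣ B * ∏ i, B0 i → ¬ l ∣ B := fun l h h' => h (Dvd.dvd.mul_right h' _)
  have hdB0 : ∀ (l : ℕ) (i : ι), ¬ l ∣ B * ∏ i, B0 i → ¬ l ∣ B0 i := fun l i h h' =>
    h (Dvd.dvd.mul_left (h'.trans (Finset.dvd_prod_of_mem B0 (Finset.mem_univ i))) _)
  have hfS : ∀ i, (SZ em rp R τ i).Finite := fun i => sz_finite τ i
  have hRl : ∀ v ∈ R, ∀ l : ℕ, Abv v l → ¬ l ∣ B * ∏ i, B0 i := by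
    rintro v hv l hl ⟨c, hc⟩
    apply hR v hv
    rw [hc, Nat.cast_mul]
    exact Ideal.mul_mem_right _ _ hl
  -- the data of an element
  have hnorm : ∀ i, ∀ u ∈ (hfS i).toFinset, ∃ v ∈ R,
      Ideal.absNorm u.asIdeal ≤ Ideal.absNorm v.asIdeal ∧
      ∃ w : HeightOneSpectrum (𝓞 K), Ov w v ∧ τ w = rp i ∧ Blw (em i) u w := by
    intro i u hu
    obtain ⟨v, hv, w, hw, hwi, huw⟩ := (Set.Finite.mem_toFinset _).1 hu
    obtain ⟨l, hl, hlv⟩ := exists_abv v
    obtain ⟨v', hv', -, φ, hφ⟩ := (hB l hl (hdB l (hRl v hv l hlv))).2.2.2 w ((ov_abv hw l).1 hlv)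
    have hvv : v' = v := blw_unique (algebraMap F K) (ov_blw hv') (ov_blw hw)
    subst hvv
    exact ⟨v', hv, sz_norm hRp (hτ v' hv) hw hwi hφ huw, w, hw, hwi, huw⟩
  have hnot : ∀ (i : ι) (l : ℕ) (v : HeightOneSpectrum (𝓞 (Lf i))), l.Prime →
      ¬ l ∣ B * ∏ i, B0 i → Abv v l → (B0 i : 𝓞 (Lf i)) ∉ v.asIdeal := by
    intro i l v hl hlB hv h
    have h1 : (l : ℤ) ∣ (B0 i : ℤ) := (nat_mem hl hv (B0 i : ℤ)).1 (by
      rw [Int.cast_natCast]
      exact h)
    exact hdB0 l i hlB (by exact_mod_cast h1)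
  have hex : ∀ i, ∃ β : 𝓞 (Lf i), β ≠ 0 ∧ (∀ v : HeightOneSpectrum (𝓞 (Lf i)),
        (B0 i : 𝓞 (Lf i)) ∉ v.asIdeal →
        (v ∈ (hfS i).toFinset → v.valuation (Lf i) (β : Lf i) = WithZero.exp (-1 : ℤ)) ∧
        (v ∉ (hfS i).toFinset → v.valuation (Lf i) (β : Lf i) = 1)) ∧
      ((Ideal.absNorm (Ideal.span {β}) : ℕ) : ℝ) ≤
        C i * ∏ v ∈ (hfS i).toFinset, ((Ideal.absNorm v.asIdeal : ℕ) : ℝ) ∧
      Nice (K0 i) β := by
    intro i
    refine hgen i (hfS i).toFinset ?_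
    intro u hu
    obtain ⟨v, hv, -, w, hw, hwi, huw⟩ := hnorm i u hu
    obtain ⟨l, hl, hlv⟩ := exists_abv v
    exact hnot i l u hl (hRl v hv l hlv) ((abv_blw huw).2 ((ov_abv hw l).1 hlv))
  choose β hβ0 hβv hβn hβN using hex
  have hz : Eqv F (ev β) := hev.eqv β
  have hzb : ∀ i, ((ev β (rp i) : 𝓞 K) : K) = em i (β i : Lf i) := fun i => hev.val β i
  have hzt : ∀ (i : ι) (g : K ≃ₐ[F] K), ((ev β (g • rp i) : 𝓞 K) : K) = g (em i (β i : Lf i)) := by
    intro i g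
    rw [hz g (rp i), hzb]
  refine ⟨ev β, hz, ?_, ?_, ?_, ?_⟩
  · intro t h0
    obtain ⟨i, ⟨g, hg⟩, -⟩ := hRp.orb t
    have h1 := hzt i g
    rw [hg, h0] at h1
    have h2 : em i (β i : Lf i) = 0 := by
      apply g.injective
      rw [← h1]
      simp
    have h3 : (β i : Lf i) = 0 := (map_eq_zero (em i)).1 h2
    exact hβ0 i (RingOfIntegers.ext (by rw [h3]; rfl))
  · intro i
    refine ⟨β i, (hzb i).symm, nice_mono ?_ (hβN i)⟩
    exact (le_abs_self _).trans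
      (Finset.single_le_sum (f := fun i => |K0 i|) (fun j _ => abs_nonneg _) (Finset.mem_univ i))
  · intro l hl hlB w hw t
    obtain ⟨i, ⟨g, hg⟩, -⟩ := hRp.orb t
    obtain ⟨w0, hw0⟩ := exists_mv hl.ne_zero hw g
    have hw0l : Abv w0 l := (abv_mv hw0).2 hw
    obtain ⟨v, hv⟩ := exists_blw (em i) w0 l hl.ne_zero hw0l
    have hsq := (hB l hl (hdB l hlB)).1
    have h1 : w.valuation K ((ev β t : 𝓞 K) : K) = v.valuation (Lf i) (β i : Lf i) := by
      rw [← hg, hzt, val_mv hl.ne_zero hsq hw g hw0, val_blw (em i) hl.ne_zero hsq hw0l hv]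
    have h2 := hβv i v (hnot i l v hl hlB ((abv_blw hv).2 hw0l))
    have h3 : v ∈ (hfS i).toFinset ↔ ((∃ v ∈ R, Ov w v) ∧ τ w = t) := by
      rw [Set.Finite.mem_toFinset, sz_mem hRp hτ hw0 hv, hg]
    rw [h1, ← h3]
    exact h2
  · obtain ⟨N, hN⟩ := prod_inv (ev β) hz
    refine ⟨N, hN, ?_⟩
    have h1 := prod_norm hRp hfin β (ev β) hz hzb N hN
    have h2 : ((Ideal.absNorm (Ideal.span {N}) : ℕ) : ℝ) =
        ∏ i, ((Ideal.absNorm (Ideal.span {β i}) : ℕ) : ℝ) := by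
      rw [h1]
      push_cast
      rfl
    have h4 : ∏ i, ∏ u ∈ (hfS i).toFinset, Ideal.absNorm u.asIdeal ≤
        ∏ v ∈ R, Ideal.absNorm v.asIdeal := by
      rcases R.eq_empty_or_nonempty with hRe | ⟨v0, -⟩
      · subst hRe
        have h5 : ∀ i, (hfS i).toFinset = ∅ := by
          intro i
          rw [Finset.eq_empty_iff_forall_notMem]
          intro u hu
          obtain ⟨v, hv, -⟩ := hnorm i u hu
          exact absurd hv (Finset.notMem_empty v)
        simp only [h5, Finset.prod_empty, Finset.prod_const_one, le_refl]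
      rw [Finset.prod_sigma']
      -- the prime of `F`
      have hch : ∀ x : (i : ι) × HeightOneSpectrum (𝓞 (Lf i)),
          ∃ v : HeightOneSpectrum (𝓞 F), x.2 ∈ (hfS x.1).toFinset →
            v ∈ R ∧ Ideal.absNorm x.2.asIdeal ≤ Ideal.absNorm v.asIdeal ∧
            ∃ w : HeightOneSpectrum (𝓞 K), Ov w v ∧ τ w = rp x.1 ∧ Blw (em x.1) x.2 w := by
        rintro ⟨i, u⟩
        by_cases hu : u ∈ (hfS i).toFinset
        · obtain ⟨v, hv, h⟩ := hnorm i u hu
          exact ⟨v, fun _ => ⟨hv, h⟩⟩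
        · exact ⟨v0, fun h => absurd h hu⟩
      choose f hf using hch
      have hinj : Set.InjOn f (Finset.univ.sigma fun i => (hfS i).toFinset : Finset _) := by
        rintro ⟨i, u⟩ hx ⟨j, u'⟩ hy hxy
        have hx' : u ∈ (hfS i).toFinset := (Finset.mem_sigma.1 hx).2
        have hy' : u' ∈ (hfS j).toFinset := (Finset.mem_sigma.1 hy).2
        obtain ⟨hvR, -, w, hw, hwi, huw⟩ := hf ⟨i, u⟩ hx'
        obtain ⟨-, -, w', hw', hwi', huw'⟩ := hf ⟨j, u'⟩ hy'
        rw [← hxy] at hw'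
        have hij : i = j := by
          obtain ⟨g, hg⟩ := trans_ov hw hw'
          have h5 := hτ _ hvR w w' g hw hg
          rw [hwi, hwi'] at h5
          exact (hRp.orb (rp j)).unique ⟨g, h5.symm⟩ ⟨1, one_smul _ _⟩
        subst hij
        have h6 : u = u' := sz_eq hRp (hτ _ hvR) hw hw' hwi hwi' huw huw'
        rw [h6]
      calc ∏ x ∈ Finset.univ.sigma fun i => (hfS i).toFinset, Ideal.absNorm x.2.asIdeal
          ≤ ∏ x ∈ Finset.univ.sigma fun i => (hfS i).toFinset, Ideal.absNorm (f x).asIdeal :=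
            Finset.prod_le_prod' fun x hx => (hf x (Finset.mem_sigma.1 hx).2).2.1
        _ = ∏ v ∈ (Finset.univ.sigma fun i => (hfS i).toFinset).image f, Ideal.absNorm v.asIdeal :=
            (Finset.prod_image (f := fun v : HeightOneSpectrum (𝓞 F) => Ideal.absNorm v.asIdeal)
              hinj).symm
        _ ≤ ∏ v ∈ R, Ideal.absNorm v.asIdeal := by
            refine Nat.le_of_dvd (Finset.prod_pos fun v _ => Nat.pos_of_ne_zero (norm_ne v))
              (Finset.prod_dvd_prod_of_subset _ _ _ ?_)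
            intro v hv
            obtain ⟨x, hx, rfl⟩ := Finset.mem_image.1 hv
            exact (hf x (Finset.mem_sigma.1 hx).2).1
    rw [h2]
    calc ∏ i, ((Ideal.absNorm (Ideal.span {β i}) : ℕ) : ℝ)
        ≤ ∏ i, (C i * ∏ v ∈ (hfS i).toFinset, ((Ideal.absNorm v.asIdeal : ℕ) : ℝ)) :=
          Finset.prod_le_prod (fun i _ => Nat.cast_nonneg _) (fun i _ => hβn i)
      _ = (∏ i, C i) * ((∏ i, ∏ v ∈ (hfS i).toFinset, Ideal.absNorm v.asIdeal : ℕ) : ℝ) := by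
          rw [Finset.prod_mul_distrib]
          push_cast
          rfl
      _ ≤ (∏ i, C i) * ((∏ v ∈ R, Ideal.absNorm v.asIdeal : ℕ) : ℝ) :=
          mul_le_mul_of_nonneg_left (by exact_mod_cast h4) (Finset.prod_nonneg fun i _ => (hC i).le)
      _ = (∏ i, C i) * ∏ v ∈ R, ((Ideal.absNorm v.asIdeal : ℕ) : ℝ) := by
          push_cast
          rfl

end Pool.Agent.Q184.ESN
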